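import Pool.Agent.Y171.CE.Stm

/-!
Project CE: upper bound of the span of the lamps (helper908).
-/

set_option autoImplicit false

open Polynomial Matrix

namespace Pool.Agent.Y908.CE

open Pool.Agent.Y171.CE

theorem card_le_of_range {H V : Type} [AddGroup H] [Finite H] [AddGroup V] (φ : H →+ V)
    (K : AddSubgroup V) (h : K ≤ φ.range) : Nat.card K ≤ Nat.card H := by
  have hf : Finite φ.range := inferInstanceAs (Finite (Set.range φ))
  have h1 : Nat.card K ≤ Nat.card φ.range :=
    Nat.card_le_card_of_injective _ (AddSubgroup.inclusion_injective h)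
  have h2 : Nat.card φ.range ≤ Nat.card H :=
    Nat.card_le_card_of_surjective _ φ.rangeRestrict_surjective
  exact h1.trans h2

/-- the parametrisation of the lamps -/
def ph {p : ℕ} {F : Type} [Field F] [Algebra (ZMod p) F] (x : F) (I b : ℕ) :
    (Fin I → Fin 2 → ZMod p) →+ (Fin 2 → F) where
  toFun c := fun t => ∑ i : Fin I, x ^ (i.1 * b) * algebraMap (ZMod p) F (c i t)
  map_zero' := by
    funext t
    simp
  map_add' c c' := by
    funext t
    simp [mul_add, Finset.sum_add_distrib]

theorem lcard : S_LCARD := by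
  intro p _ F _ _ _ _ x I b
  have h1 : lampL (p := p) x I b ≤ (ph (p := p) x I b).range := by
    unfold lampL
    rw [AddSubgroup.closure_le]
    rintro v ⟨i, hi, e, rfl⟩
    refine ⟨Pi.single ⟨i, hi⟩ e, ?_⟩
    funext t
    change ∑ j : Fin I, x ^ (j.1 * b) * algebraMap (ZMod p) F
      ((Pi.single (⟨i, hi⟩ : Fin I) e : Fin I → Fin 2 → ZMod p) j t) = _
    rw [Finset.sum_eq_single (⟨i, hi⟩ : Fin I)]
    · rw [Pi.single_eq_same]
    · intro j _ hj
      rw [Pi.single_eq_of_ne hj]
      simp
    · intro h
      exact absurd (Finset.mem_univ _) h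
  refine (card_le_of_range _ _ h1).trans (le_of_eq ?_)
  rw [Nat.card_eq_fintype_card, Fintype.card_fun, Fintype.card_fun, ZMod.card, Fintype.card_fin,
    Fintype.card_fin, ← pow_mul]

theorem US_mono {F : Type} [Field F] {L L' : AddSubgroup (Fin 2 → F)} (h : L ≤ L') :
    ∀ l : List (SL2 F), US L l ≤ US L' l := by
  intro l
  induction l with
  | nil => exact h
  | cons g l ih => exact sup_le_sup h (AddSubgroup.map_mono ih)

theorem le_US {F : Type} [Field F] (L : AddSubgroup (Fin 2 → F)) (l : List (SL2 F)) :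
    L ≤ US L l := by
  cases l with
  | nil => exact le_rfl
  | cons g l => exact le_sup_left

/-- the product of the nilpotent matrix and a vector -/
def nv {p : ℕ} {R : Type} [CommRing R] [Algebra (ZMod p) R] (N : NilT p) :
    (Fin 2 → R) →+ (Fin 2 → R) where
  toFun w := ![algebraMap (ZMod p) R N.1.1 * w 0 + algebraMap (ZMod p) R N.1.2.1 * w 1,
    algebraMap (ZMod p) R N.1.2.2 * w 0 - algebraMap (ZMod p) R N.1.1 * w 1]
  map_zero' := by
    funext t
    fin_cases t <;> simp
  map_add' v w := by
    funext t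
    fin_cases t <;> simp <;> ring

theorem nv_line {p : ℕ} [Fact p.Prime] (N : NilT p) : ∃ n : Fin 2 → ZMod p,
    ∀ e : Fin 2 → ZMod p, ∃ c : ZMod p, nv (R := ZMod p) N e = fun t => c * n t := by
  obtain ⟨⟨a, b, c⟩, h⟩ := N
  simp only at h
  by_cases ha : a = 0
  · by_cases hc : c = 0
    · refine ⟨![b, 0], fun e => ⟨e 1, ?_⟩⟩
      funext t
      fin_cases t
      · simp [nv, ha, mul_comm]
      · simp [nv, ha, hc]
    · have hb : b = 0 := by
        rw [ha, mul_zero, zero_add] at h
        exact (mul_eq_zero.1 h).resolve_right hc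
      refine ⟨![0, c], fun e => ⟨e 0, ?_⟩⟩
      funext t
      fin_cases t
      · simp [nv, ha, hb]
      · simp [nv, ha, mul_comm]
  · refine ⟨![a, c], fun e => ⟨e 0 + b / a * e 1, ?_⟩⟩
    funext t
    fin_cases t
    · simp only [nv, AddMonoidHom.coe_mk, ZeroHom.coe_mk, Algebra.algebraMap_self, RingHom.id_apply]
      simp
      field_simp
    · simp only [nv, AddMonoidHom.coe_mk, ZeroHom.coe_mk, Algebra.algebraMap_self, RingHom.id_apply]
      simp
      field_simp
      linear_combination (-(e 1)) * h

/-- the additional line -/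
def zl {p : ℕ} {F : Type} [Field F] [Algebra (ZMod p) F] (x : F) (J : ℕ) (n : Fin 2 → ZMod p) :
    ZMod p →+ (Fin 2 → F) where
  toFun c := fun t => x ^ J * algebraMap (ZMod p) F (c * n t)
  map_zero' := by
    funext t
    simp
  map_add' c c' := by
    funext t
    simp [add_mul, mul_add]

theorem step_mem {p : ℕ} [Fact p.Prime] {F : Type} [Field F] [Algebra (ZMod p) F] (x : F) (J : ℕ)
    (N : NilT p) (n : Fin 2 → ZMod p)
    (hn : ∀ e : Fin 2 → ZMod p, ∃ c : ZMod p, nv (R := ZMod p) N e = fun t => c * n t)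
    (w : Fin 2 → F) (hw : w ∈ lampL (p := p) x J 1) :
    (fun t => x * nv N w t) ∈ lampL (p := p) x J 1 ⊔ (zl (p := p) x J n).range := by
  unfold lampL at hw ⊢
  induction hw using AddSubgroup.closure_induction with
  | mem v hv =>
    obtain ⟨i, hi, e, rfl⟩ := hv
    have h1 : (fun t => x * nv N (fun t => x ^ (i * 1) * algebraMap (ZMod p) F (e t)) t) =
        fun t => x ^ ((i + 1) * 1) * algebraMap (ZMod p) F (nv (R := ZMod p) N e t) := by
      funext t
      fin_cases t
      · simp [nv]
        ring
      · simp [nv]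
        ring
    rw [h1]
    rcases Nat.lt_or_ge (i + 1) J with h | h
    · apply AddSubgroup.mem_sup_left
      exact AddSubgroup.subset_closure ⟨i + 1, h, _, rfl⟩
    · apply AddSubgroup.mem_sup_right
      obtain ⟨c, hc⟩ := hn e
      refine ⟨c, ?_⟩
      rw [hc]
      have : i + 1 = J := by omega
      rw [this, mul_one]
      rfl
  | zero =>
    have : (fun t => x * nv N (0 : Fin 2 → F) t) = 0 := by
      funext t
      rw [map_zero]
      simp
    rw [this]
    exact AddSubgroup.zero_mem _
  | add v w _ _ h1 h2 =>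
    have : (fun t => x * nv N (v + w) t) = (fun t => x * nv N v t) + fun t => x * nv N w t := by
      funext t
      rw [map_add]
      simp [mul_add]
    rw [this]
    exact AddSubgroup.add_mem _ h1 h2
  | neg v _ h1 =>
    have : (fun t => x * nv N (-v) t) = -(fun t => x * nv N v t) := by
      funext t
      rw [map_neg]
      simp
    rw [this]
    exact AddSubgroup.neg_mem _ h1

theorem act_step {p : ℕ} {F : Type} [Field F] [Algebra (ZMod p) F] (x : F) (N : NilT p)
    (w : Fin 2 → F) : act (st x N) (w - fun t => x * nv N w t) = w := by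
  have h := N.2
  have h2 : algebraMap (ZMod p) F N.1.1 * algebraMap (ZMod p) F N.1.1
      + algebraMap (ZMod p) F N.1.2.1 * algebraMap (ZMod p) F N.1.2.2 = 0 := by
    rw [← map_mul, ← map_mul, ← map_add, h, map_zero]
  change (st x N).1.mulVec (w - fun t => x * nv N w t) = w
  funext t
  fin_cases t
  · simp only [st, nv, Matrix.mulVec, dotProduct, Fin.sum_univ_two, AddMonoidHom.coe_mk,
      ZeroHom.coe_mk, Pi.sub_apply]
    simp
    linear_combination (- x ^ 2 * w 0) * h2
  · simp only [st, nv, Matrix.mulVec, dotProduct, Fin.sum_univ_two, AddMonoidHom.coe_mk,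
      ZeroHom.coe_mk, Pi.sub_apply]
    simp
    linear_combination (- x ^ 2 * w 1) * h2

theorem card_sup_le {V : Type} [AddCommGroup V] [Finite V] (A B : AddSubgroup V) :
    Nat.card (A ⊔ B : AddSubgroup V) ≤ Nat.card A * Nat.card B := by
  rw [← Nat.card_prod]
  apply Nat.card_le_card_of_surjective
    (fun q : A × B => (⟨q.1.1 + q.2.1, AddSubgroup.add_mem_sup q.1.2 q.2.2⟩ : (A ⊔ B : AddSubgroup V)))
  rintro ⟨v, hv⟩
  obtain ⟨a, ha, b, hb, rfl⟩ := AddSubgroup.mem_sup.1 hv
  exact ⟨(⟨a, ha⟩, ⟨b, hb⟩), rfl⟩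

theorem upper_aux (p : ℕ) [Fact p.Prime] (F : Type) [Field F] [Fintype F] [DecidableEq F]
    [Algebra (ZMod p) F] (x : F) (J : ℕ) : ∀ l : List (NilT p),
    Nat.card (US (lampL (p := p) x J 1) (l.map (st x))) ≤ p ^ (2 * J + l.length) := by
  intro l
  induction l with
  | nil => exact lcard p F x J 1
  | cons N l ih =>
    obtain ⟨n, hn⟩ := nv_line N
    set W := lampL (p := p) x J 1 with hW
    set U := US W (l.map (st x)) with hU
    have hWU : W ≤ U := le_US _ _
    have h1 : US W ((N :: l).map (st x)) ≤
        (U ⊔ (zl (p := p) x J n).range).map (act (st x N)) := by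
      change W ⊔ (US W (l.map (st x))).map (act (st x N)) ≤ _
      refine sup_le ?_ (AddSubgroup.map_mono le_sup_left)
      intro w hw
      refine ⟨w - fun t => x * nv N w t, ?_, act_step x N w⟩
      apply AddSubgroup.sub_mem
      · exact AddSubgroup.mem_sup_left (hWU hw)
      · exact sup_le_sup_right hWU _ (step_mem x J N n hn w hw)
    have h2 : Nat.card (zl (p := p) x J n).range ≤ p := by
      have := card_le_of_range (zl (p := p) x J n) _ le_rfl
      rwa [Nat.card_zmod] at this
    calc Nat.card (US W ((N :: l).map (st x)))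
        ≤ Nat.card ((U ⊔ (zl (p := p) x J n).range).map (act (st x N))) :=
          Nat.card_le_card_of_injective _ (AddSubgroup.inclusion_injective h1)
      _ ≤ Nat.card (U ⊔ (zl (p := p) x J n).range : AddSubgroup (Fin 2 → F)) :=
          Nat.card_le_card_of_surjective _
            ((act (st x N)).addSubgroupMap_surjective (U ⊔ (zl (p := p) x J n).range))
      _ ≤ Nat.card U * Nat.card (zl (p := p) x J n).range := card_sup_le _ _
      _ ≤ p ^ (2 * J + l.length) * p := Nat.mul_le_mul ih h2
      _ = p ^ (2 * J + (N :: l).length) := by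
        rw [List.length_cons, ← pow_succ]
        congr 1

theorem upper : S_UPPER := by
  intro p _ F _ _ _ _ x I b _ hb l
  have h1 : lampL (p := p) x I b ≤ lampL (p := p) x (I * b) 1 := by
    unfold lampL
    rw [AddSubgroup.closure_le]
    rintro v ⟨i, hi, e, rfl⟩
    apply AddSubgroup.subset_closure
    refine ⟨i * b, Nat.mul_lt_mul_of_pos_right hi hb, e, ?_⟩
    rw [mul_one]
  exact (Nat.card_le_card_of_injective _ (AddSubgroup.inclusion_injective
    (US_mono h1 (l.map (st x))))).trans (upper_aux p F x (I * b) l)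

end Pool.Agent.Y908.CE
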